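import Pool.Agent.Lib.MP_c7af3c_ag.T2.Iface
import Pool.Agent.Lib.MP_c7af3c_ag.GEN.H12.Reln

/-!
# MP_c7af3c_ag, project T2: module COREA
-/

set_option autoImplicit false

namespace Pool.Agent.T2.H16

open MvPolynomial Pool.Agent.Gen Pool.Agent.Sharp Pool.Agent.Edge Pool.Agent.T2

/-! ### Ideals of linear forms -/

section ideal

variable {Ω σ : Type} [Field Ω] [Fintype σ]

/-- `G` is a combination of the `X_f - l_f` with coefficients of degree `n`. -/
def Cmb (l : σ → MvPolynomial σ Ω) (n : ℕ) (G : MvPolynomial σ Ω) : Prop :=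
  ∃ B : σ → MvPolynomial σ Ω, (∀ f, (B f).IsHomogeneous n) ∧ G = ∑ f, B f * (X f - l f)

variable {l : σ → MvPolynomial σ Ω} {n : ℕ}

theorem Cmb.zero : Cmb l n 0 :=
  ⟨fun _ => 0, fun _ => isHomogeneous_zero _ _ _, by
    rw [Finset.sum_congr rfl fun f _ => zero_mul _, Finset.sum_const_zero]⟩

theorem Cmb.add {G H : MvPolynomial σ Ω} (hG : Cmb l n G) (hH : Cmb l n H) : Cmb l n (G + H) := by
  obtain ⟨B, h1, rfl⟩ := hG
  obtain ⟨B', h2, rfl⟩ := hH
  exact ⟨fun f => B f + B' f, fun f => (h1 f).add (h2 f), by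
    rw [← Finset.sum_add_distrib]
    exact Finset.sum_congr rfl fun f _ => (add_mul _ _ _).symm⟩

theorem Cmb.C_mul (c : Ω) {G : MvPolynomial σ Ω} (hG : Cmb l n G) : Cmb l n (C c * G) := by
  obtain ⟨B, h1, rfl⟩ := hG
  refine ⟨fun f => C c * B f, fun f => by simpa using (isHomogeneous_C σ c).mul (h1 f), ?_⟩
  rw [Finset.mul_sum]
  exact Finset.sum_congr rfl fun f _ => (mul_assoc _ _ _).symm

theorem Cmb.sum {J : Type} (s : Finset J) {g : J → MvPolynomial σ Ω} (h : ∀ j ∈ s, Cmb l n (g j)) :
    Cmb l n (∑ j ∈ s, g j) := by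
  classical
  induction s using Finset.induction_on with
  | empty => rw [Finset.sum_empty]; exact Cmb.zero
  | insert a s ha ih =>
    rw [Finset.sum_insert ha]
    exact (h a (Finset.mem_insert_self _ _)).add (ih fun j hj => h j (Finset.mem_insert_of_mem hj))

theorem cmb_monomial (hl : ∀ f, (l f).IsHomogeneous 1) : ∀ (n : ℕ) (I : σ →₀ ℕ),
    I.degree = n + 1 → Cmb l n (monomial I 1 - aeval l (monomial I (1 : Ω))) := by
  classical
  intro n
  induction n with
  | zero =>
    intro I hI
    obtain ⟨i, hi⟩ : ∃ i, I i ≠ 0 := by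
      by_contra hc
      push Not at hc
      have : I = 0 := Finsupp.ext hc
      rw [this, map_zero] at hI
      omega
    have e1 : I = (I - Finsupp.single i 1) + Finsupp.single i 1 :=
      (tsub_add_cancel_of_le (Finsupp.single_le_iff.2 (Nat.one_le_iff_ne_zero.2 hi))).symm
    have e2 : (I - Finsupp.single i 1) = 0 := by
      have h1 : (I - Finsupp.single i 1).degree = 0 := by
        have h2 := congrArg Finsupp.degree e1
        rw [map_add, Finsupp.degree_single, hI] at h2
        omega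
      exact (Finsupp.degree_eq_zero_iff _).1 h1
    rw [e1, e2, zero_add]
    have e3 : (monomial (Finsupp.single i 1) (1 : Ω) : MvPolynomial σ Ω) = X i := rfl
    rw [e3, aeval_X]
    refine ⟨fun f => if f = i then 1 else 0, fun f => ?_, ?_⟩
    · show (if f = i then (1 : MvPolynomial σ Ω) else 0).IsHomogeneous 0
      by_cases h : f = i
      · rw [if_pos h]; exact isHomogeneous_one _ _
      · rw [if_neg h]; exact isHomogeneous_zero _ _ _
    · simp only [ite_mul, one_mul, zero_mul, Finset.sum_ite_eq', Finset.mem_univ, if_true]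
  | succ n ih =>
    intro I hI
    obtain ⟨i, hi⟩ : ∃ i, I i ≠ 0 := by
      by_contra hc
      push Not at hc
      have : I = 0 := Finsupp.ext hc
      rw [this, map_zero] at hI
      omega
    have e1 : I = (I - Finsupp.single i 1) + Finsupp.single i 1 :=
      (tsub_add_cancel_of_le (Finsupp.single_le_iff.2 (Nat.one_le_iff_ne_zero.2 hi))).symm
    have h1 : (I - Finsupp.single i 1).degree = n + 1 := by
      have h2 := congrArg Finsupp.degree e1
      rw [map_add, Finsupp.degree_single, hI] at h2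
      omega
    set I' := I - Finsupp.single i 1
    obtain ⟨B, hB, hB'⟩ := ih I' h1
    have e3 : (monomial I (1 : Ω) : MvPolynomial σ Ω) = monomial I' 1 * X i := by
      rw [e1, X, monomial_mul, one_mul]
    rw [e3, map_mul, aeval_X]
    have e4 : monomial I' (1 : Ω) * X i - aeval l (monomial I' (1 : Ω)) * l i =
        monomial I' 1 * (X i - l i) + l i * (monomial I' 1 - aeval l (monomial I' (1 : Ω))) := by ring
    rw [e4, hB']
    refine ⟨fun f => (if f = i then monomial I' 1 else 0) + l i * B f, fun f => ?_, ?_⟩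
    · refine IsHomogeneous.add ?_ ?_
      · by_cases h : f = i
        · rw [if_pos h]; exact isHomogeneous_monomial _ h1
        · rw [if_neg h]; exact isHomogeneous_zero _ _ _
      · have := (hl i).mul (hB f)
        rwa [add_comm] at this
    · simp only [add_mul, Finset.sum_add_distrib, ite_mul, zero_mul, Finset.sum_ite_eq', Finset.mem_univ,
        if_true, Finset.mul_sum, mul_assoc]

theorem cmb_of_hom (hl : ∀ f, (l f).IsHomogeneous 1) {G : MvPolynomial σ Ω}
    (hG : G.IsHomogeneous (n + 1)) : Cmb l n (G - aeval l G) := by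
  have e : G = ∑ I ∈ G.support, C (coeff I G) * monomial I 1 := by
    conv_lhs => rw [G.as_sum]
    exact Finset.sum_congr rfl fun I _ => by rw [C_mul_monomial, mul_one]
  have e2 : G - aeval l G = ∑ I ∈ G.support, C (coeff I G) * (monomial I 1 - aeval l (monomial I (1 : Ω))) := by
    conv_lhs => rw [e]
    rw [map_sum, ← Finset.sum_sub_distrib]
    refine Finset.sum_congr rfl fun I _ => ?_
    rw [map_mul, aeval_C, mul_sub]
    rfl
  rw [e2]
  refine Cmb.sum _ fun I hI => (cmb_monomial hl n I ?_).C_mul _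
  by_contra hc
  exact mem_support_iff.1 hI (hG.coeff_eq_zero hc)

end ideal

/-- A form which vanishes at `y`, `y 0 = 1`, is a combination of the forms `X_j - y_j X_0`. -/
theorem form_of_eval {Ω : Type} [Field Ω] {r n : ℕ} {y : Fin (r + 1) → Ω} (hy : y 0 = 1)
    {G : MvPolynomial (Fin (r + 1)) Ω} (hG : G.IsHomogeneous (n + 1)) (h0 : eval y G = 0) :
    ∃ B : Fin r → MvPolynomial (Fin (r + 1)) Ω, (∀ j, (B j).IsHomogeneous n) ∧
      G = ∑ j, B j * (X j.succ - C (y j.succ) * X 0) := by
  set l : Fin (r + 1) → MvPolynomial (Fin (r + 1)) Ω := fun f => C (y f) * X 0 with hl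
  have hl1 : ∀ f, (l f).IsHomogeneous 1 := fun f => isHomogeneous_C_mul_X _ _
  have key : aeval l G = C (eval y G) * X 0 ^ (n + 1) := by
    have h1 : ∀ I : Fin (r + 1) →₀ ℕ, aeval l (monomial I (1 : Ω)) =
        C (eval y (monomial I (1 : Ω))) * X 0 ^ I.degree := by
      intro I
      rw [aeval_monomial, eval_monomial, map_one, one_mul, one_mul, Finsupp.prod_fintype _ _ fun _ => pow_zero _,
        Finsupp.prod_fintype _ _ fun _ => pow_zero _, map_prod]
      simp only [hl, mul_pow, Finset.prod_mul_distrib, map_pow]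
      rw [Finset.prod_pow_eq_pow_sum, Finsupp.degree_eq_sum]
    have e : G = ∑ I ∈ G.support, C (coeff I G) * monomial I 1 := by
      conv_lhs => rw [G.as_sum]
      exact Finset.sum_congr rfl fun I _ => by rw [C_mul_monomial, mul_one]
    conv_lhs => rw [e]
    conv_rhs => rw [e]
    rw [map_sum, map_sum, map_sum, Finset.sum_mul]
    refine Finset.sum_congr rfl fun I hI => ?_
    have h2 : I.degree = n + 1 := by
      by_contra hc
      exact mem_support_iff.1 hI (hG.coeff_eq_zero hc)
    rw [map_mul, map_mul, aeval_C, eval_C, h1, h2, map_mul, mul_assoc]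
    rfl
  obtain ⟨B, hB, hB'⟩ := cmb_of_hom hl1 hG
  rw [key, h0, C_0, zero_mul, sub_zero] at hB'
  refine ⟨fun j => B j.succ, fun j => hB _, ?_⟩
  rw [hB', Fin.sum_univ_succ]
  have h1 : (X 0 - l 0 : MvPolynomial (Fin (r + 1)) Ω) = 0 := by
    show X 0 - C (y 0) * X 0 = 0
    rw [hy, C_1, one_mul, sub_self]
  rw [h1, mul_zero, zero_add]

/-- coefficients in a subfield -/
theorem mem_kk {Ω : Type} [Field Ω] (k : Subfield Ω) {σ : Type} (G : MvPolynomial σ Ω) :
    G ∈ (MvPolynomial.map (σ := σ) k.subtype).range ↔ ∀ I, coeff I G ∈ k := by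
  constructor
  · rintro ⟨g, rfl⟩ I
    rw [coeff_map]
    exact (coeff I g).2
  · intro h
    refine (mem_range_map_iff_coeffs_subset (f := k.subtype)).2 ?_
    intro a ha
    obtain ⟨I, -, rfl⟩ := (mem_coeffs_iff).1 ha
    exact ⟨⟨_, h I⟩, rfl⟩

theorem fk_rename {Ω : Type} [Field Ω] {k : Subfield Ω} {σ τ : Type} {d : ℕ} {G : MvPolynomial σ Ω}
    (h : Fk k d G) (t : σ → τ) : Fk k d (MvPolynomial.rename t G) := by
  refine ⟨h.1.rename_isHomogeneous, ?_⟩
  obtain ⟨g, hg⟩ := (mem_kk k G).2 h.2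
  rw [← mem_kk, ← hg]
  exact ⟨MvPolynomial.rename t g, map_rename _ _ _⟩

section res

variable {Ω : Type} [Field Ω] {r : ℕ} (P : Fin (r + 1) → Fin (4 + 1) → Ω)

/-- the restriction to the hull -/
noncomputable def rho : MvPolynomial (Fin (4 + 1)) Ω →ₐ[Ω] MvPolynomial (Fin (r + 1)) Ω :=
  aeval fun f => ∑ i, C (P i f) * X i

theorem rho_X (f : Fin (4 + 1)) : rho P (X f) = ∑ i, C (P i f) * X i := by
  unfold rho
  rw [aeval_X]

theorem rho_hom {d : ℕ} {G : MvPolynomial (Fin (4 + 1)) Ω} (hG : G.IsHomogeneous d) :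
    (rho P G).IsHomogeneous d := by
  have h := hG.aeval (fun f => ∑ i, C (P i f) * (X i : MvPolynomial (Fin (r + 1)) Ω)) (n := 1)
    (fun f => IsHomogeneous.sum _ _ _ fun i _ => isHomogeneous_C_mul_X _ _)
  rwa [one_mul] at h

theorem rename_rho (t : Fin (r + 1) → Fin (4 + 1)) (G : MvPolynomial (Fin (4 + 1)) Ω) :
    rename t (rho P G) = aeval (fun f => ∑ i, C (P i f) * X (t i)) G := by
  have h : (rename t).comp (rho P) = aeval (fun f => ∑ i, C (P i f) * X (t i)) := by
    refine algHom_ext fun f => ?_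
    rw [AlgHom.comp_apply, rho_X, map_sum, aeval_X]
    exact Finset.sum_congr rfl fun i _ => by rw [map_mul, rename_X, rename_C]
  exact congrArg (fun φ : MvPolynomial (Fin (4 + 1)) Ω →ₐ[Ω] MvPolynomial (Fin (4 + 1)) Ω => φ G) h

theorem rho_rename {t : Fin (r + 1) → Fin (4 + 1)} (hP : ∀ i j, P i (t j) = if i = j then 1 else 0)
    (G : MvPolynomial (Fin (r + 1)) Ω) : rho P (rename t G) = G := by
  have h : (rho P).comp (rename t) = AlgHom.id Ω _ := by
    refine algHom_ext fun j => ?_
    rw [AlgHom.comp_apply, rename_X, rho_X, AlgHom.id_apply]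
    simp [hP]
  exact congrArg (fun φ : MvPolynomial (Fin (r + 1)) Ω →ₐ[Ω] MvPolynomial (Fin (r + 1)) Ω => φ G) h

theorem eval_rho {x : Fin (4 + 1) → Ω} {t : Fin (r + 1) → Fin (4 + 1)}
    (hx : ∀ f, x f = ∑ i, P i f * x (t i)) (G : MvPolynomial (Fin (4 + 1)) Ω) :
    eval (fun i => x (t i)) (rho P G) = eval x G := by
  have h : (eval fun i => x (t i)).comp (rho P : MvPolynomial (Fin (4 + 1)) Ω →+* _) = eval x := by
    refine MvPolynomial.ringHom_ext (fun a => ?_) fun f => ?_
    · change eval _ (rho P (C a)) = _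
      unfold rho
      rw [aeval_C, eval_C]
      exact eval_C _
    · change eval _ (rho P (X f)) = _
      rw [rho_X, map_sum, eval_X, hx f]
      exact Finset.sum_congr rfl fun i _ => by rw [map_mul, eval_C, eval_X]
  exact congrArg (fun φ : MvPolynomial (Fin (4 + 1)) Ω →+* Ω => φ G) h

theorem rho_mem (k : Subfield Ω) (hP : ∀ i f, P i f ∈ k) {G : MvPolynomial (Fin (4 + 1)) Ω}
    (hG : ∀ I, coeff I G ∈ k) : ∀ I, coeff I (rho P G) ∈ k := by
  rw [← mem_kk]
  have hC : ∀ a ∈ k, (C a : MvPolynomial (Fin (r + 1)) Ω) ∈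
      (MvPolynomial.map (σ := Fin (r + 1)) k.subtype).range := fun a ha => by
    exact ⟨C ⟨a, ha⟩, by rw [map_C]; rfl⟩
  have hX : ∀ i, (X i : MvPolynomial (Fin (r + 1)) Ω) ∈
      (MvPolynomial.map (σ := Fin (r + 1)) k.subtype).range := fun i => ⟨X i, by rw [map_X]⟩
  rw [G.as_sum, map_sum]
  refine Subring.sum_mem _ fun I _ => ?_
  have h1 : (monomial I (coeff I G) : MvPolynomial (Fin (4 + 1)) Ω) =
      C (coeff I G) * ∏ f, X f ^ I f := by
    rw [monomial_eq, Finsupp.prod_fintype _ _ fun _ => pow_zero _]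
  have h2 : rho P (C (coeff I G)) = C (coeff I G) := by
    unfold rho
    rw [aeval_C]
    rfl
  rw [h1, map_mul, map_prod, h2]
  refine Subring.mul_mem _ (hC _ (hG I)) (Subring.prod_mem _ fun f _ => ?_)
  rw [map_pow, rho_X]
  exact Subring.pow_mem _ (Subring.sum_mem _ fun i _ => Subring.mul_mem _ (hC _ (hP i f)) (hX i)) _

end res

/-- Module COREA. -/
theorem corea : CoreaStatement := by
  classical
  intro Ω _ _ k D x j0 s r η t P A0 hG
  have h00 : ∀ m, eval x (D.F m) = 0 := fun m => by rw [Fin.fin_one_eq_zero m]; exact hG.h0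
  have hPt := hG.hull.Pt
  have hxP := hG.hull.xP
  have hj0 := hG.hj0
  set y : Fin (r + 1) → Ω := fun i => x (t i) with hy
  have hy0 : y 0 = 1 := by
    show x (t 0) = 1
    rw [hG.hull.t0]; exact hj0
  have hlfr : ∀ j : Fin r, rename t (X j.succ - C (y j.succ) * X 0 : MvPolynomial (Fin (r + 1)) Ω) =
      lf x j0 (t j.succ) := by
    intro j
    rw [map_sub, map_mul, rename_X, rename_X, rename_C, hG.hull.t0]
    rfl
  have hl1 : ∀ j : Fin r, (X j.succ - C (y j.succ) * X 0 : MvPolynomial (Fin (r + 1)) Ω).IsHomogeneous 1 :=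
    fun j => (isHomogeneous_X _ _).sub (isHomogeneous_C_mul_X _ _)
  set V : MvPolynomial (Fin (4 + 1)) Ω →ₗ[Ω] (Fin (4 + 1) → Ω) := D.V x 0 with hV
  -- modulo the hull
  have hres : ∀ G : MvPolynomial (Fin (4 + 1)) Ω, G.IsHomogeneous 6 →
      V G - V (rename t (rho P G)) ∈ Hs x η := by
    intro G hG6
    obtain ⟨B, hB, hB'⟩ := cmb_of_hom (l := fun f => ∑ i, C (P i f) * X (t i)) (n := 5)
      (fun f => IsHomogeneous.sum _ _ _ fun i _ => isHomogeneous_C_mul_X _ _) hG6
    rw [← map_sub, rename_rho, hB', map_sum]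
    exact Submodule.sum_mem _ fun f _ => hG.van _ (hB f) f
  have hgV : ∀ G : MvPolynomial (Fin (4 + 1)) Ω, G.IsHomogeneous 6 →
      ∑ p, eval x (pderiv p (D.F 0)) * V G p = - eval x G := by
    intro G hG6
    have h1 := Pool.Agent.Gen.H12.reln Ω 4 1 (fun _ => 6) D x h00 0 0 G hG6
    rwa [if_pos rfl] at h1
  have hgx : ∑ p, eval x (pderiv p (D.F 0)) * x p = 0 := grad_x D x h00 0
  have hlf : ∀ {A : MvPolynomial (Fin (4 + 1)) Ω} (i : Fin (4 + 1)), A.IsHomogeneous 5 →
      (A * lf x j0 i).IsHomogeneous 6 := fun i hA => hA.mul (hom_lf x j0 i)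
  have hgl : ∀ {A : MvPolynomial (Fin (4 + 1)) Ω} (i : Fin (4 + 1)), A.IsHomogeneous 5 →
      ∑ p, eval x (pderiv p (D.F 0)) * V (A * lf x j0 i) p = 0 := by
    intro A i hA
    rw [hgV _ (hlf i hA), map_mul, eval_lf x hj0, mul_zero, neg_zero]
  -- coordinates
  set bv : Unit ⊕ (Fin s ⊕ Fin r) → Fin (4 + 1) → Ω :=
    Sum.elim (fun _ => x) (Sum.elim η fun b : Fin r => V (A0 * lf x j0 (t b.succ))) with hbv
  obtain ⟨Lm, hLm⟩ := LinearMap.exists_leftInverse_of_injective (Fintype.linearCombination Ω bv)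
    (LinearMap.ker_eq_bot.2 (LinearIndependent.fintypeLinearCombination_injective hG.bas))
  have hLc : ∀ c : Unit ⊕ (Fin s ⊕ Fin r) → Ω, Lm (∑ i, c i • bv i) = c := fun c => by
    have h1 := LinearMap.congr_fun hLm c
    rwa [LinearMap.comp_apply, Fintype.linearCombination_apply, LinearMap.id_apply] at h1
  have hLb : ∀ a, Lm (bv a) = Pi.single a 1 := fun a => by
    have h1 := hLc (Pi.single a 1)
    rw [Finset.sum_eq_single a, Pi.single_eq_same, one_smul] at h1
    · exact h1
    · intro b _ hb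
      rw [Pi.single_eq_of_ne hb, zero_smul]
    · intro h; exact absurd (Finset.mem_univ _) h
  let Φ : (Fin (4 + 1) → Ω) →ₗ[Ω] (Fin r → Ω) :=
    (LinearMap.funLeft Ω Ω fun i : Fin r => (Sum.inr (Sum.inr i) : Unit ⊕ (Fin s ⊕ Fin r))).comp Lm
  have hΦa : ∀ u i, Φ u i = Lm u (Sum.inr (Sum.inr i)) := fun _ _ => rfl
  have hΦ0 : ∀ u ∈ Hs x η, Φ u = 0 := by
    have h1 : Hs x η ≤ LinearMap.ker Φ := by
      refine Submodule.span_le.2 ?_
      rintro u (rfl | ⟨j, rfl⟩)
      · refine LinearMap.mem_ker.2 (funext fun i => ?_)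
        rw [hΦa]
        have h2 := hLb (Sum.inl ())
        rw [show bv (Sum.inl ()) = u from rfl] at h2
        rw [h2]
        exact Pi.single_eq_of_ne (by simp) _
      · refine LinearMap.mem_ker.2 (funext fun i => ?_)
        rw [hΦa]
        have h2 := hLb (Sum.inr (Sum.inl j))
        rw [show bv (Sum.inr (Sum.inl j)) = η j from rfl] at h2
        rw [h2]
        exact Pi.single_eq_of_ne (by simp) _
    exact fun u hu => LinearMap.mem_ker.1 (h1 hu)
  have hΦb : ∀ j : Fin r, Φ (V (A0 * lf x j0 (t j.succ))) = Pi.single j 1 := by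
    intro j
    funext i
    rw [hΦa]
    have h2 := hLb (Sum.inr (Sum.inr j))
    rw [show bv (Sum.inr (Sum.inr j)) = V (A0 * lf x j0 (t j.succ)) from rfl] at h2
    rw [h2, Pi.single_apply, Pi.single_apply]
    simp
  have hΦm : ∀ u v, u - v ∈ Hs x η → Φ u = Φ v := fun u v h => by
    have h1 := hΦ0 _ h
    rw [map_sub] at h1
    exact sub_eq_zero.1 h1
  have hker : ∀ a m, ∑ p, eval x (pderiv p (D.F m)) * bv a p = 0 := by
    intro a m
    rw [Fin.fin_one_eq_zero m]
    rcases a with a | a | a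
    · exact hgx
    · exact hG.gη a
    · exact hgl _ hG.A0k.1
  have hK0 : ∀ u : Fin (4 + 1) → Ω, ∑ p, eval x (pderiv p (D.F 0)) * u p = 0 →
      u - ∑ i : Fin r, Φ u i • V (A0 * lf x j0 (t i.succ)) ∈ Hs x η := by
    intro u hu
    have h1 : u ∈ Submodule.span Ω (Set.range bv) := by
      refine mem_span_K D x h00 bv hG.bas hker ?_ (by rw [hj0]; exact one_ne_zero) (j0 := j0) (fun m => ?_)
      · rw [Fintype.card_sum, Fintype.card_sum, Fintype.card_fin, Fintype.card_fin, Fintype.card_unit, hG.sr]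
      · rw [Fin.fin_one_eq_zero m]; exact hu
    obtain ⟨c, hc⟩ := (Submodule.mem_span_range_iff_exists_fun Ω).1 h1
    have h2 : ∀ i, Φ u i = c (Sum.inr (Sum.inr i)) := fun i => by rw [hΦa, ← hc, hLc]
    have h3 : u - ∑ i : Fin r, Φ u i • V (A0 * lf x j0 (t i.succ)) =
        c (Sum.inl ()) • x + ∑ j, c (Sum.inr (Sum.inl j)) • η j := by
      rw [Finset.sum_congr rfl fun i _ => by rw [h2 i]]
      conv_lhs => rw [← hc]
      rw [Fintype.sum_sum_type, Fintype.sum_sum_type]
      simp only [Finset.univ_unique, Finset.sum_singleton, hbv, Sum.elim_inl, Sum.elim_inr]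
      rw [← add_assoc, add_sub_cancel_right]
    rw [h3]
    refine Submodule.add_mem _ (Submodule.smul_mem _ _ (Submodule.subset_span (Set.mem_insert _ _)))
      (Submodule.sum_mem _ fun j _ => Submodule.smul_mem _ _
        (Submodule.subset_span (Set.mem_insert_of_mem _ ⟨j, rfl⟩)))
  -- the matrices
  let a : MvPolynomial (Fin (r + 1)) Ω →ₗ[Ω] Matrix (Fin r) (Fin r) Ω :=
    { toFun := fun A => Matrix.of fun i j =>
        Φ (V (rename t (homogeneousComponent 5 A) * lf x j0 (t j.succ))) i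
      map_add' := fun A B => by
        ext i j
        simp only [Matrix.of_apply, Matrix.add_apply, map_add, add_mul, Pi.add_apply]
      map_smul' := fun c A => by
        ext i j
        simp only [Matrix.of_apply, Matrix.smul_apply, map_smul, smul_mul_assoc, Pi.smul_apply,
          RingHom.id_apply] }
  have ha : ∀ A : MvPolynomial (Fin (r + 1)) Ω, A.IsHomogeneous 5 → ∀ i j,
      a A i j = Φ (V (rename t A * lf x j0 (t j.succ))) i := by
    intro A hA i j
    show Φ (V (rename t (homogeneousComponent 5 A) * lf x j0 (t j.succ))) i = _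
    rw [homogeneousComponent_eq_self hA]
  have hmod : ∀ {u v : MvPolynomial (Fin (4 + 1)) Ω}, (u * v).IsHomogeneous 6 →
      Φ (V (u * v)) = Φ (V (rename t (rho P u) * rename t (rho P v))) := fun {u v} h => by
    rw [← map_mul, ← map_mul]
    exact hΦm _ _ (hres _ h)
  have hlfk : ∀ j : Fin r, rename t (rho P (lf x j0 (t j.succ))) = lf x j0 (t j.succ) := fun j => by
    rw [← hlfr j, rho_rename P hPt]
  refine ⟨a, hy0, hG.hull.yk, ?_, ?_, ?_, ?_, ?_⟩
  · -- one
    refine ⟨rho P A0, ⟨rho_hom P hG.A0k.1, rho_mem P k hG.hull.Pk hG.A0k.2⟩, ?_⟩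
    ext i j
    have h1 := hmod (hlf (t j.succ) hG.A0k.1)
    rw [hΦb, hlfk] at h1
    rw [ha _ (rho_hom P hG.A0k.1), ← h1, Matrix.one_apply, Pi.single_apply]
  · -- comm
    intro C' hC' i j m
    have h1 : ∀ i : Fin r, ((X i.succ - C (y i.succ) * X 0) * C').IsHomogeneous 5 := fun i => by
      have := (hl1 i).mul hC'
      exact this
    have h2 : rename t ((X i.succ - C (y i.succ) * X 0) * C') * lf x j0 (t j.succ) =
        rename t ((X j.succ - C (y j.succ) * X 0) * C') * lf x j0 (t i.succ) := by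
      rw [map_mul, map_mul, hlfr, hlfr]
      ring
    rw [ha _ (h1 i), ha _ (h1 j), h2]
  · -- word
    intro l hl
    have h1 := hG.word (fun A => Matrix.of fun i j => Φ (V (A * lf x j0 (t j.succ))) i)
      (fun A hA j => hK0 _ (hgl _ hA)) (l.map (rename t)) (fun A hA => by
        obtain ⟨B, hB, rfl⟩ := List.mem_map.1 hA
        exact fk_rename (hl B hB) t)
    rw [List.map_map] at h1
    have h2 : l.map a = l.map ((fun A => Matrix.of fun i j => Φ (V (A * lf x j0 (t j.succ))) i) ∘ (rename t)) := by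
      refine List.map_congr_left fun A hA => ?_
      ext i j
      rw [ha A (hl A hA).1]
      rfl
    rw [h2]
    exact h1
  · -- eqv
    intro b hb hb0 τ hτ
    set β : MvPolynomial (Fin (4 + 1)) Ω := rename t (lnf b) with hβ
    have hlnf : (lnf b).IsHomogeneous 1 := IsHomogeneous.sum _ _ _ fun i _ => isHomogeneous_C_mul_X _ _
    have hβ1 : β.IsHomogeneous 1 := hlnf.rename_isHomogeneous
    have hβx : eval x β ≠ 0 := by
      rw [hβ, eval_rename]
      intro h
      apply hb0
      refine hG.hull.yk b hb ?_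
      rw [← h]
      unfold lnf
      rw [map_sum]
      exact Finset.sum_congr rfl fun i _ => by rw [map_mul, eval_C, eval_X]; rfl
    let θ : (Fin (4 + 1) → Ω) →ₗ[Ω] Ω := ∑ m, τ m • (LinearMap.proj m ∘ₗ Φ)
    have hθ : ∀ u, θ u = ∑ m, τ m * Φ u m := fun u => by
      show (∑ m, τ m • (LinearMap.proj m ∘ₗ Φ)) u = _
      rw [LinearMap.sum_apply]
      rfl
    have hθ0 : ∀ u ∈ Hs x η, θ u = 0 := fun u hu => by
      rw [hθ, hΦ0 u hu]
      simp
    have hQ0 : ∀ Q : MvPolynomial (Fin (4 + 1)) Ω, Q.IsHomogeneous 5 → eval x Q = 0 → θ (V (β * Q)) = 0 := by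
      intro Q hQ hQx
      have h6 : (β * Q).IsHomogeneous 6 := hβ1.mul hQ
      obtain ⟨B, hB, hB'⟩ := form_of_eval (n := 4) hy0 (rho_hom P hQ) (by rw [eval_rho P hxP]; exact hQx)
      have h1 := hmod h6
      rw [hβ, rho_rename P hPt, hB', map_sum, Finset.mul_sum, map_sum, map_sum] at h1
      rw [hθ, hβ, h1]
      simp only [Finset.sum_apply, Finset.mul_sum]
      rw [Finset.sum_comm]
      refine Finset.sum_eq_zero fun j _ => ?_
      rw [← hτ (B j) (hB j) j]
      refine Finset.sum_congr rfl fun m _ => ?_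
      have h2 : (lnf b * B j).IsHomogeneous 5 := hlnf.mul (hB j)
      have e5 : rename t (lnf b) * rename t (B j * (X j.succ - C (y j.succ) * X 0)) =
          rename t (lnf b * B j) * lf x j0 (t j.succ) := by
        rw [← hlfr, ← map_mul, ← map_mul, mul_assoc]
      rw [ha _ h2, e5]
    set c := θ (V (β * X j0 ^ 5)) with hc
    have hX5 : (X j0 ^ 5 : MvPolynomial (Fin (4 + 1)) Ω).IsHomogeneous 5 := isHomogeneous_X_pow _ _
    have hQ : ∀ Q : MvPolynomial (Fin (4 + 1)) Ω, Q.IsHomogeneous 5 → θ (V (β * Q)) = eval x Q * c := by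
      intro Q hQ
      have h1 : (Q - C (eval x Q) * X j0 ^ 5).IsHomogeneous 5 := hQ.sub (hX5.C_mul _)
      have h2 := hQ0 _ h1 (by rw [map_sub, map_mul, eval_C, map_pow, eval_X, hj0, one_pow, mul_one, sub_self])
      have h3 : β * (Q - C (eval x Q) * X j0 ^ 5) = β * Q - eval x Q • (β * X j0 ^ 5) := by
        rw [smul_eq_C_mul]; ring
      rw [h3, map_sub, map_sub, map_smul, map_smul, smul_eq_mul] at h2
      exact sub_eq_zero.1 h2
    -- all coordinates of the corrected functional are zero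
    have hp : ∀ p, eval x β * θ (Pi.single p 1) + c * eval x (pderiv p (D.F 0)) = 0 := by
      intro p
      have hQp : (pderiv p (D.F 0)).IsHomogeneous 5 := (D.hom 0).pderiv
      have h1 := hQ _ hQp
      have h2 : V (β * pderiv p (D.F 0)) = ∑ i, b i • (WT D x p (t i) - x (t i) • Pi.single p 1) := by
        have h3 : ∀ q, V (X q * pderiv p (D.F 0)) = WT D x p q - x q • Pi.single p 1 := by
          intro q
          unfold WT
          rw [VT_apply, Fin.sum_univ_one, add_sub_cancel_left]
        have h4 : β * pderiv p (D.F 0) = ∑ i, b i • (X (t i) * pderiv p (D.F 0)) := by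
          rw [hβ]
          unfold lnf
          rw [map_sum, Finset.sum_mul]
          exact Finset.sum_congr rfl fun i _ => by rw [map_mul, rename_C, rename_X, smul_eq_C_mul, mul_assoc]
        rw [h4, map_sum]
        exact Finset.sum_congr rfl fun i _ => by rw [map_smul, h3]
      have h5 : θ (V (β * pderiv p (D.F 0))) = - (eval x β * θ (Pi.single p 1)) := by
        rw [h2, map_sum]
        have h6 : eval x β = ∑ i, b i * x (t i) := by
          rw [hβ, eval_rename]
          unfold lnf
          rw [map_sum]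
          exact Finset.sum_congr rfl fun i _ => by rw [map_mul, eval_C, eval_X]; rfl
        rw [h6, Finset.sum_mul, ← Finset.sum_neg_distrib]
        refine Finset.sum_congr rfl fun i _ => ?_
        rw [map_smul, map_sub, map_smul, hθ0 _ (hG.w p (t i)), smul_eq_mul, smul_eq_mul]
        ring
      rw [h5] at h1
      linear_combination -h1
    have hall : ∀ u : Fin (4 + 1) → Ω, eval x β * θ u + c * ∑ p, eval x (pderiv p (D.F 0)) * u p = 0 := by
      intro u
      have h1 : u = ∑ p, u p • (Pi.single p 1 : Fin (4 + 1) → Ω) := by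
        funext q
        simp [Finset.sum_apply, Pi.single_apply]
      have h2 : θ u = ∑ p, u p * θ (Pi.single p 1) := by
        conv_lhs => rw [h1]
        rw [map_sum]
        exact Finset.sum_congr rfl fun p _ => by rw [map_smul, smul_eq_mul]
      rw [h2, Finset.mul_sum, Finset.mul_sum, ← Finset.sum_add_distrib]
      refine Finset.sum_eq_zero fun p _ => ?_
      linear_combination (u p) * hp p
    funext i
    have h1 := hall (V (A0 * lf x j0 (t i.succ)))
    rw [hgl _ hG.A0k.1, mul_zero, add_zero] at h1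
    have h2 := (mul_eq_zero.1 h1).resolve_left hβx
    rw [hθ, hΦb, Finset.sum_eq_single i, Pi.single_eq_same, mul_one] at h2
    · exact h2
    · intro m _ hm
      rw [Pi.single_eq_of_ne hm, mul_zero]
    · intro h; exact absurd (Finset.mem_univ _) h
  · -- ann
    intro w hw haw
    have h1 := hG.ann (rename t w) (fk_rename hw t) ?_
    · rw [eval_rename] at h1
      exact h1
    intro H hH hHx
    obtain ⟨B, hB, hB'⟩ := form_of_eval (n := 3) hy0 (rho_hom P hH) (by rw [eval_rho P hxP]; exact hHx)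
    have h6 : (rename t w * H).IsHomogeneous 6 := hw.1.rename_isHomogeneous.mul hH
    have h2 := hK0 (V (rename t w * H)) (by rw [hgV _ h6, map_mul, hHx, mul_zero, neg_zero])
    have h3 : Φ (V (rename t w * H)) = 0 := by
      have h4 := hmod h6
      rw [rho_rename P hPt, hB', map_sum, Finset.mul_sum, map_sum, map_sum] at h4
      rw [h4]
      refine Finset.sum_eq_zero fun j _ => ?_
      funext i
      have h5 : (w * B j).IsHomogeneous 5 := hw.1.mul (hB j)
      have h7 := ha _ h5 i j
      have e5 : rename t w * rename t (B j * (X j.succ - C (y j.succ) * X 0)) =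
          rename t (w * B j) * lf x j0 (t j.succ) := by
        rw [← hlfr, ← map_mul, ← map_mul, mul_assoc]
      rw [haw (B j) (hB j)] at h7
      rw [e5, ← h7]
      rfl
    rw [h3] at h2
    simpa using h2

end Pool.Agent.T2.H16
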